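import Mathlib
import Pool.Agent.Q307.MAn.Ex

set_option autoImplicit false

/-! MP_d44cd8_gt, Q1: (a) is false (the first uncountable ordinal has a metric analog at every base
point and is not quasimetrizable), (b) is true. -/

open Topology Filter

namespace Pool.Agent.Results.MP_d44cd8_gt.MetricAnalogs

universe u

/-- `X` is quasimetrizable: there is a quasimetric `d` on `X` such that the balls
`{y | d x y < r}` form a base of the topology. -/
def QuasiMetrizable (X : Type*) [TopologicalSpace X] : Prop :=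
  ∃ d : X → X → ℝ, (∀ x y, 0 ≤ d x y) ∧ (∀ x, d x x = 0) ∧ (∀ x y z, d x z ≤ d x y + d y z) ∧
    TopologicalSpace.IsTopologicalBasis {b : Set X | ∃ x, ∃ r : ℝ, 0 < r ∧ b = {y | d x y < r}}

/-- `(X, x₀)` has a metric analog: a based metric space `(M, m₀)` and a based open quotient map
`q : M → X` such that for every based metric space `(A, a₀)`, (1) every based continuous map
`f : A → X` is `q ∘ g` for a based continuous map `g : A → M`, and (2) two based continuous maps
`f, g : A → M` with `q ∘ f = q ∘ g` are homotopic relative to the base point by a homotopy which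
moves along the fibres of `q`. -/
def HasMetricAnalog (X : Type u) [TopologicalSpace X] (x₀ : X) : Prop :=
  ∃ (M : Type u) (_ : MetricSpace M) (m₀ : M) (q : M → X), IsOpenQuotientMap q ∧ q m₀ = x₀ ∧
    ∀ (A : Type u) [MetricSpace A] (a₀ : A),
      (∀ f : A → X, Continuous f → f a₀ = x₀ →
        ∃ g : A → M, Continuous g ∧ g a₀ = m₀ ∧ q ∘ g = f) ∧
      (∀ f g : A → M, Continuous f → f a₀ = m₀ → Continuous g → g a₀ = m₀ → q ∘ f = q ∘ g →
        ∃ F : A × unitInterval → M, Continuous F ∧ (∀ a, F (a, 0) = f a) ∧ (∀ a, F (a, 1) = g a) ∧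
          (∀ s, F (a₀, s) = m₀) ∧ ∀ a s t, q (F (a, s)) = q (F (a, t)))

theorem of_loc {X S : Type u} [TopologicalSpace X] [T0Space X] {Xs : S → Set X}
    {B : ℕ → S → X → Set X} (hL : Pool.Agent.Q307.MAn.Loc Xs B) (x₀ : X) :
    HasMetricAnalog X x₀ := by
  obtain ⟨s₀, hs₀⟩ := hL.cover x₀
  refine ⟨Pool.Agent.Q307.MAn.MM Xs B, inferInstance,
    ⟨x₀, Pool.Agent.Q307.MAn.dl (s₀, x₀), Pool.Agent.Q307.MAn.good_dl hL hs₀⟩,
    Pool.Agent.Q307.MAn.MM.x, ⟨Pool.Agent.Q307.MAn.surjective_x hL,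
      Pool.Agent.Q307.MAn.continuous_x hL, Pool.Agent.Q307.MAn.isOpenMap_x hL⟩, rfl, ?_⟩
  intro A _ a₀
  constructor
  · intro f hf hf0
    obtain ⟨g, hg, hg0, hgf⟩ := Pool.Agent.Q307.MAn.lift hL hs₀ a₀ f hf hf0
    exact ⟨g, hg, hg0, funext hgf⟩
  · intro f g hf hf0 hg hg0 hfg
    obtain ⟨F, hF, h0, h1, h2, h3⟩ := Pool.Agent.Q307.MAn.homotopy hf hg (fun a => congrFun hfg a)
    refine ⟨F, hF, h0, h1, fun s => ?_, fun a s t => ?_⟩
    · rw [h2 a₀ (hf0.trans hg0.symm) s, hf0]
    · rw [h3, h3]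

theorem of_quasiMetrizable (X : Type u) [TopologicalSpace X] [T0Space X] (x₀ : X)
    (h : QuasiMetrizable X) : HasMetricAnalog X x₀ := by
  obtain ⟨d, hd0, hself, htri, hb⟩ := h
  have hL : Pool.Agent.Q307.MAn.Loc (X := X) (S := PUnit.{u + 1}) (fun _ => Set.univ)
      (fun n _ y => {z | d y z < (1 / 2) ^ n}) := by
    refine ⟨fun _ => isOpen_univ, fun x => ⟨PUnit.unit, trivial⟩, ?_, ?_, ?_⟩
    · intro n _ y _
      exact hb.isOpen ⟨y, (1 / 2) ^ n, by positivity, rfl⟩
    · intro n _ y _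
      show d y y < (1 / 2) ^ n
      rw [hself]; positivity
    · intro _ x _ O hO hx
      obtain ⟨ε, hε, h1⟩ := Pool.Agent.Q307.MAn.nhds_ball htri hb (hO.mem_nhds hx)
      obtain ⟨K, hK⟩ := exists_pow_lt_of_lt_one (half_pos hε) (show (1 / 2 : ℝ) < 1 by norm_num)
      refine ⟨{y | d x y < ε / 2}, Pool.Agent.Q307.MAn.ball_nhds hself hb x (half_pos hε), K,
        fun m hm y hy _ z hz => h1 ?_⟩
      have e1 : d x y < ε / 2 := hy
      have e2 : d y z < (1 / 2) ^ m := hz
      have e3 : ((1 / 2 : ℝ)) ^ m ≤ (1 / 2) ^ K :=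
        pow_le_pow_of_le_one (by norm_num) (by norm_num) hm
      have := htri x y z
      show d x z < ε
      linarith
  exact of_loc hL x₀

/-- (a) fails, even for hereditarily normal Hausdorff spaces, and (b) holds. -/
theorem result :
    (∃ (X : Type) (_ : TopologicalSpace X) (_ : T5Space X),
      (∀ x₀ : X, HasMetricAnalog X x₀) ∧ Nonempty X ∧ ¬ QuasiMetrizable X) ∧
    (∀ (X : Type u) [TopologicalSpace X] [T0Space X] (x₀ : X),
      QuasiMetrizable X → HasMetricAnalog X x₀) :=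
  ⟨⟨Pool.Agent.Q307.MAn.W, inferInstance, inferInstance,
    fun x₀ => of_loc Pool.Agent.Q307.MAn.loc_W x₀, inferInstance,
    Pool.Agent.Q307.MAn.not_QM_W⟩, fun X _ _ x₀ h => of_quasiMetrizable X x₀ h⟩

end Pool.Agent.Results.MP_d44cd8_gt.MetricAnalogs
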